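import Pool.Agent.Helper36.LM.Defs

/-!
# LM-C: isomorphisms, moves and twists of configurations
-/

set_option autoImplicit false

namespace Pool.Agent.Helper36.LM

open Module Finset

variable {K : Type} [Field K] {E : Type} [AddCommGroup E] [Module K E] [FiniteDimensional K E]
  {ι : Type} [Fintype ι]

namespace Conf

omit [FiniteDimensional K E] [Fintype ι] in
theorem conf_ext {C C' : Conf K E ι} (hT : C.T = C'.T) (ha : C.a = C'.a) (hb : C.b = C'.b) :
    C = C' := by
  cases C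
  cases C'
  simp only at hT ha hb
  subst hT
  subst ha
  subst hb
  rfl

omit [FiniteDimensional K E] [Fintype ι] in
theorem Iso.line_eq {C C' : Conf K E ι} {g : E ≃ₗ[K] E} (h : Iso C C' g) (i : ι) :
    C.line i = (C'.line i).map (g.dualMap : Dual K E ≃ₗ[K] Dual K E).toLinearMap := by
  have h1 : g.dualMap (C'.a i) = C.a i := by
    ext φ
    exact (h.2.1 i φ).symm
  have h2 : g.dualMap (C'.b i) = C.b i := by
    ext φ
    exact (h.2.2 i φ).symm
  rw [line, line, Submodule.map_span, Set.image_pair]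
  rw [LinearEquiv.coe_coe, h1, h2]

omit [FiniteDimensional K E] [Fintype ι] in
theorem Iso.T_eq {C C' : Conf K E ι} {g : E ≃ₗ[K] E} (h : Iso C C' g) (φ : E) :
    C.T φ = g.dualMap (C'.T (g φ)) := by
  ext φ'
  exact h.1 φ φ'

omit [FiniteDimensional K E] [Fintype ι] in
theorem Iso.R_eq {C C' : Conf K E ι} {g : E ≃ₗ[K] E} (h : Iso C C' g) :
    C.R = C'.R.map (g.dualMap : Dual K E ≃ₗ[K] Dual K E).toLinearMap := by
  ext f
  constructor
  · rintro ⟨φ, rfl⟩
    exact ⟨C'.T (g φ), ⟨g φ, rfl⟩, (h.T_eq φ).symm⟩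
  · rintro ⟨_, ⟨φ, rfl⟩, rfl⟩
    refine ⟨g.symm φ, ?_⟩
    rw [h.T_eq, g.apply_symm_apply]
    rfl

omit [FiniteDimensional K E] [Fintype ι] in
theorem Iso.adj_iff {C C' : Conf K E ι} {g : E ≃ₗ[K] E} (h : Iso C C' g) (i k : ι) :
    C.adj i k ↔ C'.adj i k := by
  have hm : ∀ (i : ι) (φ : E), C.T φ ∈ C.line i ↔ C'.T (g φ) ∈ C'.line i := by
    intro i φ
    rw [h.line_eq, h.T_eq]
    constructor
    · rintro ⟨f, hf, hf'⟩
      have : f = C'.T (g φ) := g.dualMap.injective hf'
      rw [← this]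
      exact hf
    · intro hf
      exact ⟨_, hf, rfl⟩
  constructor
  · rintro ⟨ψ, φ, h1, h2, h3⟩
    refine ⟨g ψ, g φ, (hm _ _).1 h1, (hm _ _).1 h2, ?_⟩
    rw [← h.1]
    exact h3
  · rintro ⟨ψ, φ, h1, h2, h3⟩
    refine ⟨g.symm ψ, g.symm φ, (hm _ _).2 ?_, (hm _ _).2 ?_, ?_⟩
    · rw [g.apply_symm_apply]
      exact h1
    · rw [g.apply_symm_apply]
      exact h2
    · rw [h.1, g.apply_symm_apply, g.apply_symm_apply]
      exact h3

omit [FiniteDimensional K E] in
theorem Iso.pot_eq {C C' : Conf K E ι} {g : E ≃ₗ[K] E} (h : Iso C C' g) : C.pot = C'.pot := by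
  have h1 : C.rnk = C'.rnk := by
    rw [rnk, rnk, h.R_eq]
    exact LinearEquiv.finrank_map_eq _ _
  have h2 : C.one = C'.one := by
    unfold one
    refine Finset.filter_congr fun i _ => ?_
    rw [h.R_eq, h.line_eq, ← Submodule.map_inf _ g.dualMap.injective]
    rw [LinearEquiv.finrank_map_eq]
  have h3 : C.num = C'.num := by
    have e : ∀ p : ι × ι, C.adj p.1 p.2 = C'.adj p.1 p.2 := fun p => propext (h.adj_iff _ _)
    unfold num
    rw [h2]
    congr 1
    classical
    refine Finset.filter_congr fun p _ => ?_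
    rw [e]
  rw [pot, pot, h1, h2, h3]

omit [FiniteDimensional K E] in
theorem Iso.move {C C' : Conf K E ι} {g : E ≃ₗ[K] E} (h : Iso C C' g) (y : ι → K) :
    Iso (C.move y) (C'.move y) g := by
  refine ⟨fun φ φ' => ?_, h.2.1, h.2.2⟩
  show (C.T + ∑ i, y i • wed (C.a i) (C.b i)) φ φ' =
    (C'.T + ∑ i, y i • wed (C'.a i) (C'.b i)) (g φ) (g φ')
  rw [LinearMap.add_apply, LinearMap.add_apply, LinearMap.add_apply, LinearMap.add_apply,
    LinearMap.sum_apply, LinearMap.sum_apply, LinearMap.sum_apply, LinearMap.sum_apply, h.1]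
  congr 1
  refine Finset.sum_congr rfl fun i _ => ?_
  rw [LinearMap.smul_apply, LinearMap.smul_apply, LinearMap.smul_apply, LinearMap.smul_apply,
    wed_apply, wed_apply, h.2.1, h.2.1, h.2.2, h.2.2]

omit [FiniteDimensional K E] in
theorem Iso.imp {C C' : Conf K E ι} {g : E ≃ₗ[K] E} (h : Iso C C' g) {p s : ℕ}
    (hI : C.Imp p s) : C'.Imp p s := by
  obtain ⟨y, hy, hp⟩ := hI
  exact ⟨y, hy, by rw [← (h.move y).pot_eq]; exact hp⟩

omit [FiniteDimensional K E] in
theorem move_move (C : Conf K E ι) (y z : ι → K) : (C.move y).move z = C.move (y + z) := by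
  refine conf_ext ?_ rfl rfl
  show (C.T + ∑ i, y i • wed (C.a i) (C.b i)) + ∑ i, z i • wed (C.a i) (C.b i) =
    C.T + ∑ i, (y + z) i • wed (C.a i) (C.b i)
  rw [add_assoc, ← Finset.sum_add_distrib]
  congr 1
  refine Finset.sum_congr rfl fun i _ => ?_
  rw [Pi.add_apply, add_smul]

omit [FiniteDimensional K E] in
theorem move_zero (C : Conf K E ι) : C.move 0 = C := by
  refine conf_ext ?_ rfl rfl
  show C.T + ∑ i, (0 : ι → K) i • wed (C.a i) (C.b i) = C.T
  simp

omit [FiniteDimensional K E] in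
theorem imp_of_lt {C : Conf K E ι} {p : ℕ} (h : p < C.pot) (s : ℕ) : C.Imp p s := by
  classical
  refine ⟨0, ?_, by rw [move_zero]; exact h⟩
  simp

omit [FiniteDimensional K E] in
theorem Imp.mono {C : Conf K E ι} {p s s' : ℕ} (h : C.Imp p s) (hs : s ≤ s') : C.Imp p s' := by
  obtain ⟨y, hy, hp⟩ := h
  exact ⟨y, hy.trans hs, hp⟩

omit [FiniteDimensional K E] in
theorem move_iso_tw [DecidableEq ι] {C : Conf K E ι} {j : ι} {c : Dual K E} {ψ : E}
    {d : Dual K E} (hj : C.Fr j c ψ d) (μ : K) (h : 1 + μ * d ψ ≠ 0) :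
    ∃ (ε : K) (g : E ≃ₗ[K] E), Iso (C.move (Pi.single j ε)) (C.tw ψ d μ h) g := by
  -- skew symmetry
  have hsw : ∀ φ φ' : E, C.T φ φ' = - C.T φ' φ := by
    intro φ φ'
    have h0 := C.alt (φ + φ')
    simp only [map_add, LinearMap.add_apply, C.alt] at h0
    linear_combination h0
  -- coordinates
  have hc : c ∈ C.line j := by
    rw [hj.span]
    exact Submodule.subset_span (by simp)
  have hd : d ∈ C.line j := by
    rw [hj.span]
    exact Submodule.subset_span (by simp)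
  have hcR : c ∈ C.R := ⟨ψ, hj.eq⟩
  rw [line, Submodule.mem_span_pair] at hc hd
  obtain ⟨α, β, hαβ⟩ := hc
  obtain ⟨γ, δ, hγδ⟩ := hd
  have hwed : ∀ φ φ' : E, c φ * d φ' - d φ * c φ' =
      (α * δ - β * γ) * (C.a j φ * C.b j φ' - C.b j φ * C.a j φ') := by
    intro φ φ'
    rw [← hαβ, ← hγδ]
    simp only [LinearMap.add_apply, LinearMap.smul_apply, smul_eq_mul]
    ring
  set ε₀ : K := μ / (1 + μ * d ψ) with hε₀
  have hε : ε₀ * (1 + μ * d ψ) = μ := by
    rw [hε₀]
    field_simp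
  -- the isomorphism
  let g₁ : E →ₗ[K] E := LinearMap.id - ε₀ • d.smulRight ψ
  let g₂ : E →ₗ[K] E := LinearMap.id + μ • d.smulRight ψ
  have hg₁ : ∀ φ, g₁ φ = φ - (ε₀ * d φ) • ψ := by
    intro φ
    show φ - ε₀ • (d φ • ψ) = _
    rw [smul_smul]
  have hg₂ : ∀ φ, g₂ φ = φ + (μ * d φ) • ψ := by
    intro φ
    show φ + μ • (d φ • ψ) = _
    rw [smul_smul]
  have h12 : g₁.comp g₂ = LinearMap.id := by
    ext φ
    rw [LinearMap.comp_apply, hg₁, hg₂, map_add, map_smul, smul_eq_mul, LinearMap.id_apply]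
    have : μ * d φ - ε₀ * (d φ + μ * d φ * d ψ) = 0 := by
      linear_combination (- d φ) * hε
    rw [add_sub_assoc, ← sub_smul, this, zero_smul, add_zero]
  have h21 : g₂.comp g₁ = LinearMap.id := by
    ext φ
    rw [LinearMap.comp_apply, hg₂, hg₁, map_sub, map_smul, smul_eq_mul, LinearMap.id_apply]
    have : μ * (d φ - ε₀ * d φ * d ψ) - ε₀ * d φ = 0 := by
      linear_combination (- d φ) * hε
    rw [sub_add_eq_add_sub, add_sub_assoc, ← sub_smul, this, zero_smul, add_zero]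
  refine ⟨ε₀ * (α * δ - β * γ), LinearEquiv.ofLinearMap g₁ g₂ h12 h21, ?_, ?_, ?_⟩
  · intro φ φ'
    rw [LinearEquiv.coe_ofLinearMap, hg₁, hg₁]
    show (C.T + ∑ i, (Pi.single j (ε₀ * (α * δ - β * γ)) : ι → K) i • wed (C.a i) (C.b i)) φ φ' =
      C.T (φ - (ε₀ * d φ) • ψ) (φ' - (ε₀ * d φ') • ψ)
    have hsum : ∑ i, (Pi.single j (ε₀ * (α * δ - β * γ)) : ι → K) i • wed (C.a i) (C.b i) =
        (ε₀ * (α * δ - β * γ)) • wed (C.a j) (C.b j) := by
      rw [Finset.sum_eq_single j]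
      · rw [Pi.single_eq_same]
      · intro i _ hi
        rw [Pi.single_eq_of_ne hi, zero_smul]
      · intro hh
        exact absurd (Finset.mem_univ _) hh
    rw [hsum, LinearMap.add_apply, LinearMap.add_apply, LinearMap.smul_apply,
      LinearMap.smul_apply, wed_apply, smul_eq_mul]
    simp only [map_sub, map_smul, LinearMap.sub_apply, LinearMap.smul_apply, smul_eq_mul]
    have e1 : C.T ψ ψ = 0 := C.alt ψ
    have e2 : C.T ψ φ' = c φ' := by rw [hj.eq]
    have e3 : C.T φ ψ = - c φ := by rw [hsw, hj.eq]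
    rw [e1, e2, e3]
    linear_combination (- ε₀) * hwed φ φ'
  · intro i φ
    rw [LinearEquiv.coe_ofLinearMap, hg₁]
    show C.a i φ = (C.a i + (μ * C.a i ψ) • d) (φ - (ε₀ * d φ) • ψ)
    simp only [map_sub, map_smul, LinearMap.add_apply, LinearMap.smul_apply, smul_eq_mul]
    linear_combination (C.a i ψ * d φ) * hε
  · intro i φ
    rw [LinearEquiv.coe_ofLinearMap, hg₁]
    show C.b i φ = (C.b i + (μ * C.b i ψ) • d) (φ - (ε₀ * d φ) • ψ)
    simp only [map_sub, map_smul, LinearMap.add_apply, LinearMap.smul_apply, smul_eq_mul]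
    linear_combination (C.b i ψ * d φ) * hε

omit [FiniteDimensional K E] in
theorem imp_of_tw {C : Conf K E ι} {j : ι} {c : Dual K E} {ψ : E}
    {d : Dual K E} (hj : C.Fr j c ψ d) (μ : K) (h : 1 + μ * d ψ ≠ 0) {p s : ℕ}
    (hI : (C.tw ψ d μ h).Imp p s) : C.Imp p (s + 1) := by
  classical
  obtain ⟨ε, g, hg⟩ := move_iso_tw hj μ h
  obtain ⟨y, hy, hp⟩ := hI
  refine ⟨Pi.single j ε + y, ?_, ?_⟩
  · have hsub : (Finset.univ.filter (fun i => (Pi.single j ε + y : ι → K) i ≠ 0)) ⊆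
        insert j (Finset.univ.filter (fun i => y i ≠ 0)) := by
      intro i hi
      rw [Finset.mem_filter] at hi
      rw [Finset.mem_insert, Finset.mem_filter]
      by_cases hij : i = j
      · exact Or.inl hij
      · refine Or.inr ⟨Finset.mem_univ _, ?_⟩
        have := hi.2
        rw [Pi.add_apply, Pi.single_eq_of_ne hij, zero_add] at this
        exact this
    have h1 := Finset.card_le_card hsub
    have h2 := Finset.card_insert_le j (Finset.univ.filter (fun i => y i ≠ 0))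
    have h3 : (Finset.univ.filter (fun i => y i ≠ 0)).card ≤ s := by
      convert hy
    have h4 : (Finset.univ.filter (fun i => (Pi.single j ε + y : ι → K) i ≠ 0)).card ≤ s + 1 := by
      omega
    convert h4
  · rw [← move_move]
    rw [(hg.move y).pot_eq]
    exact hp

end Conf

end Pool.Agent.Helper36.LM
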